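import Pool.Graph.R_pool_sql_team_8f841797.Results.MP_4b601f_co.Closed

/-!
# Escape sequences of rotor walks on trees: closure properties and symmetric trees

The definitions of the walk and of escape sequences (`step`, `walk`, `Escapes`, `Lim`, `IsEsc`) are
those of the library module
`Pool.Graph.R_pool_sql_team_8f841797.Results.MP_4b601f_co.Closed`.
-/

set_option autoImplicit false

namespace Pool.Agent.Results.MP_4b601f_co.Embeddings

open Pool.Agent.H10.Rotor Pool.Agent.Results.MP_4b601f_co.Closed Finset Classical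

/-- `e` is an escape sequence for the tree `b` -/
def IsEscapeSequence (b : List ℕ → ℕ) (e : ℕ → Bool) : Prop :=
  ∃ r : List ℕ → ℕ, (∀ v, r v ≤ b v) ∧ IsEsc b r e

/-- The ones of `g` can be mapped to ones of `e` by a strictly increasing map that does not
increase distances. -/
def Embeds (g e : ℕ → Bool) : Prop :=
  ∃ ψ : ℕ → ℕ, (∀ p, g p = true → e (ψ p) = true) ∧
    ∀ p q, g p = true → g q = true → p < q → ψ p < ψ q ∧ ψ q - ψ p ≤ q - p

/-- `β 0 * β 1 * ⋯ * β (k - 1)` -/
def maxEsc (β : ℕ → ℕ) (k : ℕ) : ℕ := ∏ i ∈ range k, β i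

/-- `1 + β (k - 1) + β (k - 2) * β (k - 1) + ⋯ + β 0 * ⋯ * β (k - 1)` -/
def len (β : ℕ → ℕ) (k : ℕ) : ℕ := ∑ j ∈ range (k + 1), ∏ i ∈ Ico j k, β i

theorem maxEsc_succ (β : ℕ → ℕ) (k : ℕ) :
    maxEsc β (k + 1) = β 0 * maxEsc (fun i => β (i + 1)) k := by
  unfold maxEsc
  rw [prod_range_succ', mul_comm]

theorem len_succ (β : ℕ → ℕ) (k : ℕ) :
    len β (k + 1) = len (fun i => β (i + 1)) k + β 0 * maxEsc (fun i => β (i + 1)) k := by
  unfold len
  rw [sum_range_succ']
  congr 1
  · refine sum_congr rfl fun j _ => ?_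
    rw [← prod_Ico_add' (fun i => β i) j k 1]
  · rw [← maxEsc_succ, maxEsc, range_eq_Ico]

theorem len_pos (β : ℕ → ℕ) (k : ℕ) : 1 ≤ len β k := by
  unfold len
  rw [sum_range_succ]
  simp

/-! ### Counting -/

theorem oc_add (g : ℕ → Prop) [DecidablePred g] (p n : ℕ) :
    oc g (p + n) = oc g p + ((Ico p (p + n)).filter g).card := by
  induction n with
  | zero => simp
  | succ n ih =>
    have e : Ico p (p + n + 1) = insert (p + n) (Ico p (p + n)) := by
      ext x
      simp only [mem_Ico, mem_insert]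
      omega
    rw [← Nat.add_assoc, oc, ih, Nat.add_assoc, e, filter_insert]
    split_ifs with h
    · rw [card_insert_of_notMem (by simp)]
    · rfl

/-- the block condition passes up -/
theorem blk_up {b0 r0 : ℕ} {g : ℕ → Prop} {c : ℕ → ℕ → Prop} (h : LRec b0 r0 g c) {L N : ℕ}
    (hL : 1 ≤ L) (hc : ∀ k p, 1 ≤ k → k ≤ b0 → oc (c k) (p + L) ≤ oc (c k) p + N) (p : ℕ) :
    oc g (p + (L + b0 * N)) ≤ oc g p + b0 * N := by
  obtain ⟨κ, h1, h2, -⟩ := h
  by_contra hcon
  push Not at hcon
  obtain ⟨S, hS⟩ : ∃ S, S = (Ico p (p + (L + b0 * N))).filter g := ⟨_, rfl⟩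
  have hcard : b0 * N < S.card := by
    have := oc_add g p (L + b0 * N)
    rw [← hS] at this
    omega
  have hz : zc g (p + (L + b0 * N)) ≤ zc g p + (L - 1) := by
    have a1 := zc_add_oc g (p + (L + b0 * N))
    have a2 := zc_add_oc g p
    omega
  have hmem : ∀ q ∈ S, g q ∧ zc g p ≤ zc g q ∧ zc g q ≤ zc g p + (L - 1) := by
    intro q hq
    rw [hS, mem_filter, mem_Ico] at hq
    exact ⟨hq.2, zc_mono g hq.1.1, (zc_mono g hq.1.2.le).trans hz⟩
  obtain ⟨k, hk, hlt⟩ := exists_lt_card_fiber_of_mul_lt_card_of_maps_to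
    (s := S) (t := Icc 1 b0) (f := κ) (n := N) (fun q hq => by
      obtain ⟨a, b, -⟩ := h1 q (hmem q hq).1
      exact mem_Icc.2 ⟨a, b⟩) (by simpa using hcard)
  rw [mem_Icc] at hk
  obtain ⟨δ, hδ⟩ : ∃ δ, δ = if r0 < k then 1 else 0 := ⟨_, rfl⟩
  have hcb := hc k (zc g p + δ - 1) hk.1 hk.2
  rw [oc_add] at hcb
  have hle : (S.filter (fun q => κ q = k)).card ≤
      ((Ico (zc g p + δ - 1) (zc g p + δ - 1 + L)).filter (c k)).card := by
    refine card_le_card_of_injOn (fun q => zc g q + δ - 1) ?_ ?_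
    · intro q hq
      rw [coe_filter, Set.mem_ofPred_eq] at hq
      obtain ⟨hg, z1, z2⟩ := hmem q hq.1
      obtain ⟨-, -, i, hi, he⟩ := h1 q hg
      rw [hq.2] at hi he
      rw [← hδ] at he
      rw [coe_filter, Set.mem_ofPred_eq, mem_Ico]
      beta_reduce
      have : zc g q + δ - 1 = i := by omega
      rw [this]
      exact ⟨⟨by omega, by omega⟩, hi⟩
    · intro q hq q' hq' he
      rw [coe_filter, Set.mem_ofPred_eq] at hq hq'
      obtain ⟨hg, -, -⟩ := hmem q hq.1
      obtain ⟨hg', -, -⟩ := hmem q' hq'.1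
      obtain ⟨-, -, i, hi, hi'⟩ := h1 q hg
      obtain ⟨-, -, j, hj, hj'⟩ := h1 q' hg'
      rw [hq.2, ← hδ] at hi'
      rw [hq'.2, ← hδ] at hj'
      beta_reduce at he
      exact h2 q q' hg hg' (by omega) (by rw [hq.2, hq'.2])
  omega

/-- the block condition is necessary -/
theorem necessary (k : ℕ) : ∀ (β : ℕ → ℕ) (b r : Cfg), (∀ v, b v = β v.length) →
    (∀ v, r v ≤ b v) → ∀ p, oc (E b r) (p + len β k) ≤ oc (E b r) p + maxEsc β k := by
  induction k with
  | zero =>
    intro β b r _ _ p
    have e1 : len β 0 = 1 := by simp [len]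
    have e2 : maxEsc β 0 = 1 := by simp [maxEsc]
    rw [e1, e2, oc]
    split_ifs <;> omega
  | succ k ih =>
    intro β b r hb hr p
    rw [len_succ, maxEsc_succ]
    have e0 : β 0 = b [] := by rw [hb]; rfl
    rw [e0]
    refine blk_up (lrec_true hr) (len_pos _ _) (fun c q _ _ => ?_) p
    exact ih (fun i => β (i + 1)) (sub c b) (sub c r) (fun v => by
      show b (c :: v) = _
      rw [hb]
      rfl) (fun v => hr _) q

/-! ### Construction -/

/-- label of a one: cyclic assignment to the children -/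
noncomputable def lab (b0 : ℕ) (g : ℕ → Prop) (p : ℕ) : ℕ := oc g p % b0 + 1

/-- the rotor -/
noncomputable def rot (b0 : ℕ) (g : ℕ → Prop) : ℕ := if g 0 then 0 else b0

/-- the escape sequences of the children -/
def child (b0 : ℕ) (g : ℕ → Prop) (k i : ℕ) : Prop :=
  ∃ p, g p ∧ lab b0 g p = k ∧ zc g p + (if rot b0 g < k then 1 else 0) = i + 1

theorem lrec_child {b0 : ℕ} {g : ℕ → Prop} (h : ∀ p, oc g (p + (1 + b0)) ≤ oc g p + b0) :
    LRec b0 (rot b0 g) g (child b0 g) := by
  have hb : ∀ p, g p → 1 ≤ b0 := by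
    intro p hp
    by_contra hb
    have hb0 : b0 = 0 := by omega
    have := h p
    rw [hb0] at this
    simp only [Nat.add_zero, oc, if_pos hp] at this
    omega
  have hlab : ∀ p, g p → lab b0 g p ≤ b0 := by
    intro p hp
    have := Nat.mod_lt (oc g p) (hb p hp)
    unfold lab
    omega
  have key : ∀ p q, g p → g q → zc g p = zc g q → lab b0 g p = lab b0 g q → p < q → False := by
    intro p q hp hq hz hl hpq
    have hbp := hb p hp
    have a1 := zc_add_oc g p
    have a2 := zc_add_oc g q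
    have hmod : oc g p % b0 = oc g q % b0 := by
      unfold lab at hl
      omega
    have hoc : oc g q = oc g p + (q - p) := by omega
    have hdvd : b0 ∣ q - p := by
      have h3 : oc g p ≡ oc g q [MOD b0] := hmod
      have h4 := (Nat.modEq_iff_dvd' (by omega)).1 h3
      rwa [hoc, Nat.add_sub_cancel_left] at h4
    have hle := Nat.le_of_dvd (by omega) hdvd
    have h5 := h p
    have h6 : zc g (p + b0) ≤ zc g q := zc_mono g (by omega)
    have h7 : zc g p ≤ zc g (p + b0) := zc_mono g (by omega)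
    have h8 := zc_add_oc g (p + b0)
    -- the entry at `p + b0` is a one
    have h9 : g (p + b0) := by
      by_contra h10
      rcases Nat.lt_or_ge (p + b0) q with h11 | h11
      · have h12 : zc g (p + b0 + 1) ≤ zc g q := zc_mono g (by omega)
        rw [zc, if_neg h10] at h12
        omega
      · have : p + b0 = q := by omega
        exact h10 (this ▸ hq)
    have h13 : p + (1 + b0) = p + b0 + 1 := by omega
    rw [h13, oc, if_pos h9] at h5
    omega
  refine ⟨lab b0 g, ?_, ?_, ?_⟩
  · intro p hp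
    refine ⟨by unfold lab; omega, hlab p hp, ?_⟩
    have hpos : 1 ≤ zc g p + (if rot b0 g < lab b0 g p then 1 else 0) := by
      by_cases h0 : g 0
      · have : rot b0 g < lab b0 g p := by
          unfold rot lab
          rw [if_pos h0]
          omega
        rw [if_pos this]
        omega
      · have hp0 : 1 ≤ p := by
          rcases Nat.eq_zero_or_pos p with h1 | h1
          · exact absurd (h1 ▸ hp) h0
          · exact h1
        have h1 : zc g 1 ≤ zc g p := zc_mono g hp0
        have h2 : zc g 1 = 1 := by simp [zc, h0]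
        omega
    obtain ⟨i, hi⟩ : ∃ i, zc g p + (if rot b0 g < lab b0 g p then 1 else 0) = i + 1 :=
      ⟨_, (Nat.succ_pred_eq_of_pos hpos).symm⟩
    exact ⟨i, ⟨p, hp, rfl, hi⟩, hi⟩
  · intro p q hp hq hz hl
    rcases lt_trichotomy p q with h1 | h1 | h1
    · exact (key p q hp hq hz hl h1).elim
    · exact h1
    · exact (key q p hq hp hz.symm hl.symm h1).elim
  · intro k i _ _ hc
    exact hc

/-- the block condition passes down -/
theorem blk_down {b0 : ℕ} {g : ℕ → Prop} {L N : ℕ} (_hL : 1 ≤ L)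
    (h : ∀ p, oc g (p + (L + b0 * N)) ≤ oc g p + b0 * N) (k i : ℕ) :
    oc (child b0 g k) (i + L) ≤ oc (child b0 g k) i + N := by
  rw [oc_add]
  by_contra hcon
  push Not at hcon
  obtain ⟨T, hT⟩ : ∃ T, T = (Ico i (i + L)).filter (child b0 g k) := ⟨_, rfl⟩
  rw [← hT] at hcon
  have hcard : N < T.card := by omega
  obtain ⟨δ, hδ⟩ : ∃ δ, δ = if rot b0 g < k then 1 else 0 := ⟨_, rfl⟩
  have hP : ∀ j, ∃ p, j ∈ T → g p ∧ lab b0 g p = k ∧ zc g p + δ = j + 1 := by
    intro j
    by_cases hj : j ∈ T
    · rw [hT, mem_filter] at hj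
      obtain ⟨p, hp⟩ := hj.2
      exact ⟨p, fun _ => by rw [hδ]; exact hp⟩
    · exact ⟨0, fun h => absurd h hj⟩
  choose P hP using hP
  have hne : T.Nonempty := by
    rw [← card_pos]
    omega
  have hmono : ∀ j ∈ T, ∀ j' ∈ T, j < j' → P j < P j' := by
    intro j hj j' hj' hlt
    obtain ⟨-, -, e1⟩ := hP j hj
    obtain ⟨-, -, e2⟩ := hP j' hj'
    by_contra hge
    have := zc_mono g (not_lt.1 hge)
    omega
  -- the quotients of the numbers of ones
  have hq : ∀ j ∈ T, oc g (P j) = b0 * (oc g (P j) / b0) + (k - 1) := by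
    intro j hj
    obtain ⟨-, e1, -⟩ := hP j hj
    have := Nat.div_add_mod (oc g (P j)) b0
    unfold lab at e1
    omega
  have hoc : ∀ j ∈ T, ∀ j' ∈ T, j < j' → oc g (P j) < oc g (P j') := by
    intro j hj j' hj' hlt
    have h1 := oc_mono g (show P j + 1 ≤ P j' from hmono j hj j' hj' hlt)
    rw [oc, if_pos (hP j hj).1] at h1
    omega
  have hquot : ∀ j ∈ T, ∀ j' ∈ T, j < j' → oc g (P j) / b0 < oc g (P j') / b0 := by
    intro j hj j' hj' hlt
    have h1 := hoc j hj j' hj' hlt
    have h2 := hq j hj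
    have h3 := hq j' hj'
    by_contra hge
    have := Nat.mul_le_mul_left b0 (not_lt.1 hge)
    omega
  obtain ⟨a, ha⟩ : ∃ a, a = T.min' hne := ⟨_, rfl⟩
  obtain ⟨z, hz⟩ : ∃ z, z = T.max' hne := ⟨_, rfl⟩
  have haT : a ∈ T := ha ▸ T.min'_mem hne
  have hzT : z ∈ T := hz ▸ T.max'_mem hne
  have hle : T.card ≤ (Icc (oc g (P a) / b0) (oc g (P z) / b0)).card := by
    refine card_le_card_of_injOn (fun j => oc g (P j) / b0) ?_ ?_
    · intro j hj
      have hj' : j ∈ T := hj
      rw [coe_Icc, Set.mem_Icc]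
      constructor
      · rcases (ha ▸ T.min'_le j hj' : a ≤ j).eq_or_lt with h1 | h1
        · rw [h1]
        · exact (hquot a haT j hj' h1).le
      · rcases (hz ▸ T.le_max' j hj' : j ≤ z).eq_or_lt with h1 | h1
        · rw [h1]
        · exact (hquot j hj' z hzT h1).le
    · intro j hj j' hj' he
      rcases lt_trichotomy j j' with h1 | h1 | h1
      · exact absurd he (hquot j hj j' hj' h1).ne
      · exact h1
      · exact absurd he (hquot j' hj' j hj h1).ne'
  rw [Nat.card_Icc] at hle
  have hdiff : b0 * (oc g (P a) / b0) + b0 * N ≤ b0 * (oc g (P z) / b0) := by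
    rw [← Nat.mul_add]
    exact Nat.mul_le_mul_left b0 (by omega)
  have h1 := hq a haT
  have h2 := hq z hzT
  obtain ⟨ga, -, za⟩ := hP a haT
  obtain ⟨gz, -, zz⟩ := hP z hzT
  have ha' : a ∈ Ico i (i + L) := (mem_filter.1 (hT ▸ haT)).1
  have hz' : z ∈ Ico i (i + L) := (mem_filter.1 (hT ▸ hzT)).1
  rw [mem_Ico] at ha' hz'
  have h3 := h (P a)
  rcases Nat.lt_or_ge (P z) (P a + (L + b0 * N)) with h4 | h4
  · have h5 := oc_mono g (show P z + 1 ≤ P a + (L + b0 * N) from h4)
    rw [oc, if_pos gz] at h5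
    omega
  · have h5 := zc_mono g h4
    have h6 := zc_add_oc g (P a + (L + b0 * N))
    have h7 := zc_add_oc g (P a)
    omega

/-- the sequences of the subtrees -/
def seqs (β : ℕ → ℕ) (g : ℕ → Prop) : List ℕ → ℕ → Prop
  | [] => g
  | k :: u => child (β u.length) (seqs β g u) k

theorem sufficient (β : ℕ → ℕ) (b : Cfg) (hb : ∀ v, b v = β v.length) (g : ℕ → Prop)
    (hg : ∀ k p, oc g (p + len β k) ≤ oc g p + maxEsc β k) :
    ∃ r : Cfg, (∀ v, r v ≤ b v) ∧ ∀ n, g n ↔ E b r n := by
  have hinv : ∀ u : List ℕ, ∀ k p, oc (seqs β g u) (p + len (fun i => β (i + u.length)) k) ≤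
      oc (seqs β g u) p + maxEsc (fun i => β (i + u.length)) k := by
    intro u
    induction u with
    | nil => exact hg
    | cons c u ih =>
      intro k p
      have h1 := fun p => ih (k + 1) p
      simp only [len_succ, maxEsc_succ, Nat.zero_add] at h1
      have e : (fun i => β (i + (c :: u).length)) = fun i => β (i + 1 + u.length) := by
        funext i
        congr 1
        simp only [List.length_cons]
        omega
      rw [e]
      exact blk_down (len_pos _ _) h1 c p
  let f : List ℕ → ℕ → Prop := fun v => seqs β g v.reverse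
  have hf : ∀ v k, f (v ++ [k]) = child (β v.length) (f v) k := by
    intro v k
    show seqs β g (v ++ [k]).reverse = _
    rw [List.reverse_append]
    show child (β v.reverse.length) (seqs β g v.reverse) k = _
    rw [List.length_reverse]
  have hrec : GRec b (fun v => rot (b v) (f v)) f := by
    intro v
    have e1 : (fun k => f (v ++ [k])) = child (b v) (f v) := by
      funext k
      rw [hf, hb]
    beta_reduce
    rw [e1]
    apply lrec_child
    intro p
    have h1 := hinv v.reverse 1 p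
    rw [len_succ, maxEsc_succ] at h1
    have e2 : len (fun i => (fun i => β (i + v.reverse.length)) (i + 1)) 0 = 1 := by simp [len]
    have e3 : maxEsc (fun i => (fun i => β (i + v.reverse.length)) (i + 1)) 0 = 1 := by
      simp [maxEsc]
    rw [e2, e3] at h1
    simp only [Nat.mul_one, Nat.zero_add, List.length_reverse] at h1
    rw [hb]
    exact h1
  have hret : GRet b (fun v => rot (b v) (f v)) f := by
    intro v h0
    refine ret_iff.2 fun k h1 h2 => ?_
    simp only [subs, List.append_nil, rot, if_neg h0] at h1 h2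
    omega
  refine ⟨fun v => rot (b v) (f v), fun v => ?_, fun n => good_eq b n _ f hrec hret⟩
  show rot (b v) (f v) ≤ b v
  unfold rot
  split_ifs <;> omega

/-! ### Closure under embeddings -/

theorem closure_dom {b r : Cfg} (hr : ∀ v, r v ≤ b v) (g : ℕ → Prop) (hg : Dom g (E b r)) :
    ∃ r' : Cfg, (∀ v, r' v ≤ b v) ∧ ∀ n, g n ↔ E b r' n := by
  have hF : ∀ v, LRec (b v) (r v) (E (subs v b) (subs v r))
      (fun k => E (subs (v ++ [k]) b) (subs (v ++ [k]) r)) := by
    intro v
    have := lrec_true (b := subs v b) (r := subs v r) fun l => hr _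
    simp only [subs_snoc]
    have e1 : subs v b [] = b v := by simp [subs]
    have e2 : subs v r [] = r v := by simp [subs]
    rwa [e1, e2] at this
  have hstep : ∀ (v : List ℕ) (g : ℕ → Prop), ∃ (r1 : ℕ) (d : ℕ → ℕ → Prop),
      Dom g (E (subs v b) (subs v r)) → r1 ≤ b v ∧ LRec (b v) r1 g d ∧
        (∀ k, Dom (d k) (E (subs (v ++ [k]) b) (subs (v ++ [k]) r))) ∧
        (r1 = b v ∨ r1 = r v) ∧ (¬ g 0 → r1 = b v ∨ ¬ E (subs v b) (subs v r) 0) := by
    intro v g
    by_cases hd : Dom g (E (subs v b) (subs v r))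
    · obtain ⟨r1, d, h⟩ := (hF v).descend hd (hr v)
      exact ⟨r1, d, fun _ => h⟩
    · exact ⟨0, fun _ _ => False, fun h => absurd h hd⟩
  choose ρ d hd using hstep
  let G : List ℕ → ℕ → Prop := fun u => List.rec g (fun k u Gu => d u.reverse Gu k) u
  let f : List ℕ → ℕ → Prop := fun v => G v.reverse
  have hf : ∀ v k, f (v ++ [k]) = d v (f v) k := by
    intro v k
    show G (v ++ [k]).reverse = _
    rw [List.reverse_append]
    show d v.reverse.reverse (G v.reverse) k = _
    rw [List.reverse_reverse]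
  have hdom : ∀ v, Dom (f v) (E (subs v b) (subs v r)) := by
    intro v
    induction v using List.reverseRecOn with
    | nil => exact hg
    | append_singleton v k ih => rw [hf]; exact (hd v _ ih).2.2.1 k
  refine ⟨fun v => ρ v (f v), fun v => (hd v _ (hdom v)).1, fun n => ?_⟩
  refine good_eq b n _ f (fun v => ?_) (fun v h0 => ?_)
  · simp only [hf]; exact (hd v _ (hdom v)).2.1
  · rcases (hd v _ (hdom v)).2.2.2.2 h0 with h | h
    · refine ret_iff.2 fun k h1 h2 => ?_
      simp only [subs, List.append_nil] at h1 h2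
      omega
    · exact ret_transfer (not_not.1 h) _ fun l => (hd _ _ (hdom (v ++ l))).2.2.2.1

theorem E_shift (b r : Cfg) (m n : ℕ) : E b ((N b)^[m] r) n ↔ E b r (n + m) := by
  unfold E
  rw [← Function.iterate_add_apply]

theorem closure_embeds {b r : Cfg} (hr : ∀ v, r v ≤ b v) (g : ℕ → Prop) (ψ : ℕ → ℕ)
    (h1 : ∀ p, g p → E b r (ψ p))
    (h2 : ∀ p q, g p → g q → p < q → ψ p < ψ q ∧ ψ q - ψ p ≤ q - p) :
    ∃ r' : Cfg, (∀ v, r' v ≤ b v) ∧ ∀ n, g n ↔ E b r' n := by
  by_cases hex : ∃ p, g p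
  · obtain ⟨p0, hp0⟩ : ∃ p0, p0 = Nat.find hex := ⟨_, rfl⟩
    have g0 : g p0 := hp0 ▸ Nat.find_spec hex
    have hmin : ∀ p, g p → p0 ≤ p := fun p hp => hp0 ▸ Nat.find_min' hex hp
    have hbd : ∀ p, g p → ψ p0 ≤ ψ p ∧ ψ p ≤ ψ p0 + (p - p0) := by
      intro p hp
      rcases (hmin p hp).eq_or_lt with h | h
      · subst h
        exact ⟨le_rfl, by omega⟩
      · have := h2 p0 p g0 hp h
        exact ⟨this.1.le, by omega⟩
    refine closure_dom (b := b) (r := (N b)^[ψ p0 - p0] r) (iter_le hr _) g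
      ⟨fun p => ψ p - (ψ p0 - p0), fun p hp => ?_, fun p q hp hq hpq => ?_⟩
    · have := hbd p hp
      have := hmin p hp
      beta_reduce
      refine ⟨?_, by omega⟩
      rw [E_shift]
      have e : ψ p - (ψ p0 - p0) + (ψ p0 - p0) = ψ p := by omega
      rw [e]
      exact h1 p hp
    · have a1 := hbd p hp
      have a2 := hbd q hq
      have a3 := h2 p q hp hq hpq
      beta_reduce
      constructor <;> omega
  · refine closure_dom hr g ⟨id, fun p hp => absurd ⟨p, hp⟩ hex, fun p q hp => absurd ⟨p, hp⟩ hex⟩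

/-- **Theorem.** (1) Let `e` be an escape sequence for a tree, and let `g` be a sequence whose ones
can be mapped to ones of `e` by a strictly increasing map that does not increase distances (in
particular: `g` is termwise at most `e`; or `g` arises from `e` by inserting zeros at arbitrary,
even infinitely many, places; or by deleting initial terms). Then `g` is an escape sequence for the
same tree.
(2) Let `T` be a spherically symmetric tree: every vertex at distance `i + 1` from the root has
`β i` children, where the numbers `β i` are arbitrary. Then `e` is an escape sequence for `T` if and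
only if for every `k`, every block of `1 + β (k-1) + β (k-2) β (k-1) + ⋯ + β 0 ⋯ β (k-1)`
consecutive terms of `e` contains at most `β 0 β 1 ⋯ β (k-1)` ones. -/
theorem result :
    (∀ (b : List ℕ → ℕ) (e g : ℕ → Bool), IsEscapeSequence b e → Embeds g e →
      IsEscapeSequence b g) ∧
    (∀ (b : List ℕ → ℕ) (e g : ℕ → Bool), IsEscapeSequence b e → (∀ n, g n ≤ e n) →
      IsEscapeSequence b g) ∧
    (∀ (β : ℕ → ℕ) (b : List ℕ → ℕ), (∀ v, b v = β v.length) → ∀ e : ℕ → Bool,
      (IsEscapeSequence b e ↔ ∀ k p,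
        ((Ico p (p + len β k)).filter (fun n => e n = true)).card ≤ maxEsc β k)) := by
  have h1 : ∀ (b : List ℕ → ℕ) (e g : ℕ → Bool), IsEscapeSequence b e → Embeds g e →
      IsEscapeSequence b g := by
    rintro b e g ⟨r, hr, he⟩ ⟨ψ, p1, p2⟩
    rw [isEsc_iff hr] at he
    obtain ⟨r', hr', h⟩ := closure_embeds hr (fun n => g n = true) ψ
      (fun p hp => (he _).1 (p1 p hp)) p2
    exact ⟨r', hr', (isEsc_iff hr' _).2 h⟩
  refine ⟨h1, fun b e g he hle => h1 b e g he ⟨id, fun p hp => ?_, fun p q _ _ hpq =>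
    ⟨hpq, le_rfl⟩⟩, fun β b hb e => ⟨?_, ?_⟩⟩
  · have := hle p
    rw [hp] at this
    exact top_le_iff.1 this
  · rintro ⟨r, hr, he⟩ k p
    rw [isEsc_iff hr] at he
    have h2 := necessary k β b r hb hr p
    have h3 : (fun n => e n = true) = E b r := by
      funext n
      exact propext (he n)
    rw [← h3, oc_add] at h2
    omega
  · intro h
    obtain ⟨r, hr, hE⟩ := sufficient β b hb (fun n => e n = true) (fun k p => by
      rw [oc_add]
      have := h k p
      omega)
    exact ⟨r, hr, (isEsc_iff hr _).2 hE⟩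

end Pool.Agent.Results.MP_4b601f_co.Embeddings
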